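import Pool.Agent.T2H90.GQ.Stm

set_option autoImplicit false

namespace Pool.Agent.T2H90.GQ

open Encodable Pool.Agent.Helper578.JD Pool.Agent.Helper578.JD.Defs Pool.Agent.Helper578.JD.Oracle
  Pool.Agent.Helper578.JD.RE

namespace PkgBD

/-- the list coded by a number -/
def dl (k : ℕ) : List ℕ := (decode (α := List ℕ) k).getD []

theorem dl_comp : Computable dl := by
  unfold dl
  exact Computable.option_getD Computable.decode (Computable.const [])

theorem enc_multiset (m : Multiset ℕ) : ∃ l : List ℕ, decode (α := List ℕ)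
    (@encode (Multiset ℕ) Multiset.encodable m) = some l ∧ (l : Multiset ℕ) = m := by
  have h : @decode (Multiset ℕ) Multiset.encodable (@encode (Multiset ℕ) Multiset.encodable m) =
    some m := @encodek (Multiset ℕ) Multiset.encodable m
  have h2 : Option.map (fun l : List ℕ => (l : Multiset ℕ)) (decode (α := List ℕ)
    (@encode (Multiset ℕ) Multiset.encodable m)) = some m := h
  rw [Option.map_eq_some_iff] at h2
  exact h2

theorem mem_dl (s : Finset ℕ) (y : ℕ) : y ∈ dl (encode s) ↔ y ∈ s := by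
  obtain ⟨l, h1, h2⟩ := enc_multiset s.1
  have e : encode s = @encode (Multiset ℕ) Multiset.encodable s.1 := rfl
  unfold dl
  rw [e, h1, Option.getD_some, ← Finset.mem_val, ← h2, Multiset.mem_coe]

end PkgBD

open PkgBD in
theorem pBD (hCE : S_CE) : S_BD := by
  intro G N hG hN hT
  have hg := turingReducible_fun_iff.1 hT
  let C : ℕ → Prop := fun z => ∃ y, z.unpair.2 < y ∧ G.Adj z.unpair.1 y
  have hC : REPred C := by
    refine RE.exN (p := fun (z : ℕ) (y : ℕ) => z.unpair.2 < y ∧ G.Adj z.unpair.1 y) (RE.and ?_ ?_)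
    · exact RE.lt (by fun_prop) (by fun_prop)
    · exact RE.comp (RE.of_comput hG) (f := fun x : ℕ × ℕ => (x.1.unpair.1, x.2)) (by fun_prop)
  have hnC : REIn gA fun z => ¬ C z := by
    have h1 : REIn gA fun z : ℕ => ∃ k : ℕ, encode (N z.unpair.1) = k ∧
        ∀ y ∈ dl k, y ≤ z.unpair.2 := by
      refine REIn.ex (S := fun (z : ℕ) (k : ℕ) => encode (N z.unpair.1) = k ∧
        ∀ y ∈ dl k, y ≤ z.unpair.2) (REIn.and ?_ (REIn.of_re ?_))
      · exact hg.comp (f := fun x : ℕ × ℕ => (x.1.unpair.1, x.2)) (by fun_prop)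
      · refine RE.all_mem (p := fun (x : ℕ × ℕ) (y : ℕ) => y ≤ x.1.unpair.2) ?_
          (l := fun x : ℕ × ℕ => dl x.2) (dl_comp.comp Computable.snd)
        exact RE.le (by fun_prop) (by fun_prop)
    refine h1.of_eq fun z => ?_
    constructor
    · rintro ⟨k, hk, h⟩ ⟨y, hy1, hy2⟩
      have := h y (by rw [← hk, mem_dl]; exact (hN _ _).1 hy2)
      omega
    · intro h
      refine ⟨_, rfl, fun y hy => ?_⟩
      rw [mem_dl] at hy
      by_contra hlt
      exact h ⟨y, by omega, (hN _ _).2 hy⟩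
  have hcomp := hCE C hC hnC
  -- for every x there is a bound
  have hex : ∀ x : ℕ, ∃ n : ℕ, ¬ C (Nat.pair x n) := by
    intro x
    refine ⟨(N x).sup id, ?_⟩
    rintro ⟨y, hy1, hy2⟩
    rw [Nat.unpair_pair] at hy1 hy2
    have := Finset.le_sup (f := id) ((hN _ _).1 hy2)
    simp only [id] at this hy1
    omega
  classical
  let h : ℕ → ℕ := fun x => Nat.find (hex x)
  refine ⟨h, ?_, ?_⟩
  · refine RE.computable_of_graph ?_
    have hre : REPred fun x : ℕ × ℕ => (¬ C (Nat.pair x.1 x.2)) ∧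
        ∀ i < x.2, C (Nat.pair x.1 i) := by
      refine RE.and ?_ ?_
      · have h2 : REPred fun z : ℕ => ¬ C z := (ComputablePred.not hcomp).to_re
        exact RE.comp h2 (f := fun x : ℕ × ℕ => Nat.pair x.1 x.2) (by fun_prop)
      · refine RE.all_lt (p := fun (x : ℕ × ℕ) (i : ℕ) => C (Nat.pair x.1 i)) ?_
          (f := fun x : ℕ × ℕ => x.2) (by fun_prop)
        exact RE.comp hC (f := fun x : (ℕ × ℕ) × ℕ => Nat.pair x.1.1 x.2) (by fun_prop)
    refine hre.of_eq fun x => ?_
    show _ ↔ Nat.find (hex x.1) = x.2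
    rw [Nat.find_eq_iff]
    simp only [not_not]
  · intro x y hxy
    by_contra hlt
    refine Nat.find_spec (hex x) ⟨y, ?_, ?_⟩
    · rw [Nat.unpair_pair]
      exact not_le.1 hlt
    · rw [Nat.unpair_pair]
      exact hxy

end Pool.Agent.T2H90.GQ
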