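import Pool.Agent.T2H90.GQ.Stm

set_option autoImplicit false

namespace Pool.Agent.T2H90.GQ

open Encodable Pool.Agent.Helper578.JD Pool.Agent.Helper578.JD.Defs Pool.Agent.Helper578.JD.Oracle
  Pool.Agent.Helper578.JD.RE

namespace PkgCE

/-- the information `c` is correct for the string `τ` -/
def OkS (τ : List Bool) (c : List ℕ × List ℕ) : Prop :=
  (∀ x ∈ c.1, τ[x]? = some true) ∧ (∀ x ∈ c.2, τ[x]? = some false)

lemma okS_ok {τ : List Bool} {c : List ℕ × List ℕ} (h : Pre τ) (hc : OkS τ c) : Ok gA c :=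
  ⟨fun x hx => (h x true (hc.1 x hx)).1 rfl, fun x hx hxA => by
    have h1 := (h x false (hc.2 x hx)).2 hxA
    cases h1⟩

lemma okS_re {α : Type} [Primcodable α] {f : α → List Bool} {g : α → List ℕ × List ℕ}
    (hf : Computable f) (hg : Computable g) : REPred fun a => OkS (f a) (g a) := by
  refine RE.and ?_ ?_
  · refine RE.all_mem (p := fun (a : α) (x : ℕ) => (f a)[x]? = some true) (l := fun a => (g a).1) ?_ (by fun_prop)
    exact RE.eq (f := fun x : α × ℕ => (f x.1)[x.2]?) (g := fun _ => some true) (by fun_prop) (by fun_prop)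
  · refine RE.all_mem (p := fun (a : α) (x : ℕ) => (f a)[x]? = some false) (l := fun a => (g a).2) ?_ (by fun_prop)
    exact RE.eq (f := fun x : α × ℕ => (f x.1)[x.2]?) (g := fun _ => some false) (by fun_prop) (by fun_prop)

lemma stg_app (hPRE : S_PRE) (n : ℕ) : ∀ k : ℕ, ∃ ρ, stg (n + k) = stg n ++ ρ := by
  intro k
  induction k with
  | zero => exact ⟨[], by simp⟩
  | succ k ih =>
    obtain ⟨ρ, h1⟩ := ih
    obtain ⟨ρ', h2⟩ := hPRE.2.1 (n + k)
    refine ⟨ρ ++ ρ', ?_⟩
    rw [← Nat.add_assoc, h2, h1, List.append_assoc]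

lemma ok_okS (hPRE : S_PRE) {c : List ℕ × List ℕ} {N : ℕ} (h1 : ∀ x ∈ c.1, x < N) (h2 : ∀ x ∈ c.2, x < N)
    (hc : Ok gA c) : OkS (stg N) c := by
  have hlen := hPRE.1 N
  have hpre := hPRE.2.2.1 N
  constructor
  · intro x hx
    have h3 : x < (stg N).length := lt_of_lt_of_le (h1 x hx) hlen
    have h4 : (stg N)[x]? = some (stg N)[x] := List.getElem?_eq_getElem h3
    have h5 := (hpre x _ h4).2 (hc.1 x hx)
    rw [h4, h5]
  · intro x hx
    have h3 : x < (stg N).length := lt_of_lt_of_le (h2 x hx) hlen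
    have h4 : (stg N)[x]? = some (stg N)[x] := List.getElem?_eq_getElem h3
    have h5 : (stg N)[x] ≠ true := fun h => hc.2 x hx ((hpre x _ h4).1 h)
    rw [h4]
    simp only [Option.some.injEq]
    exact Bool.eq_false_iff.2 h5

end PkgCE

open PkgCE

theorem pCE (hPRE : S_PRE) (hGN : S_GN) : S_CE := by
  intro C hC hnC
  obtain ⟨R, hR, hCR⟩ := hnC
  let S : List Bool → Prop := fun τ => ∃ u : ℕ × (List ℕ × List ℕ), C u.1 ∧ R u.1 u.2 ∧ OkS τ u.2
  have hS : REPred S := by
    refine RE.ex (p := fun (τ : List Bool) (u : ℕ × (List ℕ × List ℕ)) => C u.1 ∧ R u.1 u.2 ∧ OkS τ u.2) ?_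
    refine RE.and ?_ (RE.and ?_ ?_)
    · exact RE.comp hC (f := fun y : List Bool × (ℕ × (List ℕ × List ℕ)) => y.2.1) (by fun_prop)
    · exact RE.comp hR (f := fun y : List Bool × (ℕ × (List ℕ × List ℕ)) => (y.2.1, y.2.2)) (by fun_prop)
    · exact okS_re (by fun_prop) (by fun_prop)
  rcases hGN S hS with ⟨τ, hτ, ⟨x, c⟩, h1, h2, h3⟩ | ⟨n, hn⟩
  · exact absurd h1 ((hCR x).2 ⟨c, h2, okS_ok hτ h3⟩)
  · have key : ∀ x, ¬ C x ↔ ∃ w : List Bool × (List ℕ × List ℕ), R x w.2 ∧ OkS (stg n ++ w.1) w.2 := by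
      intro x
      constructor
      · intro hx
        obtain ⟨c, h1, h2⟩ := (hCR x).1 hx
        obtain ⟨ρ, hρ⟩ := stg_app hPRE n (c.1.sum + c.2.sum + 1)
        refine ⟨(ρ, c), h1, ?_⟩
        show OkS (stg n ++ ρ) c
        rw [← hρ]
        refine ok_okS hPRE ?_ ?_ h2
        · intro y hy
          have := List.single_le_sum (by simp) y hy
          omega
        · intro y hy
          have := List.single_le_sum (by simp) y hy
          omega
      · rintro ⟨⟨ρ, c⟩, h1, h2⟩ hx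
        exact hn ρ ⟨(x, c), hx, h1, h2⟩
    refine RE.cp_of_re hC ?_
    have h4 : REPred fun x => ∃ w : List Bool × (List ℕ × List ℕ), R x w.2 ∧ OkS (stg n ++ w.1) w.2 := by
      refine RE.ex (p := fun (x : ℕ) (w : List Bool × (List ℕ × List ℕ)) =>
        R x w.2 ∧ OkS (stg n ++ w.1) w.2) ?_
      refine RE.and ?_ ?_
      · exact RE.comp hR (f := fun y : ℕ × (List Bool × (List ℕ × List ℕ)) => (y.1, y.2.2)) (by fun_prop)
      · exact okS_re (by fun_prop) (by fun_prop)
    have h5 : (fun x => ¬ C x) = fun x => ∃ w : List Bool × (List ℕ × List ℕ),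
        R x w.2 ∧ OkS (stg n ++ w.1) w.2 := funext fun x => propext (key x)
    rw [h5]
    exact h4

end Pool.Agent.T2H90.GQ
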