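import Pool.Agent.T2H90.GQ.Stm

set_option autoImplicit false

namespace Pool.Agent.T2H90.GQ

open Encodable Pool.Agent.Helper578.JD Pool.Agent.Helper578.JD.Defs Pool.Agent.Helper578.JD.Oracle
  Pool.Agent.Helper578.JD.RE

namespace PkgCO

lemma total_select {α β : Type} [Primcodable α] [Primcodable β] {r : α → β → Prop}
    (hr : REPred fun x : α × β => r x.1 x.2) (h : ∀ a, ∃ b, r a b) :
    ∃ f : α → β, Computable f ∧ ∀ a, r a (f a) := by
  obtain ⟨g, hg, h1, h2⟩ := uniformize hr
  have hd : ∀ a, (g a).Dom := fun a => (h1 a).2 (h a)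
  refine ⟨fun a => (g a).get (hd a), ?_, fun a => h2 a _ (Part.get_mem (hd a))⟩
  exact hg.of_eq_tot fun a => Part.get_mem (hd a)

lemma mod2 {α : Type} [Primcodable α] {f : α → ℕ} (hf : Computable f) : Computable fun a => f a % 2 := by
  have h : Primrec₂ ((· % ·) : ℕ → ℕ → ℕ) := Primrec.nat_mod
  exact (h.to_comp.comp hf (Computable.const 2))

end PkgCO

open PkgCO in
theorem pCO (hMS : S_MS) : S_CO := by
  intro G h hadj hh hb hcol
  obtain ⟨m, hm, hmono, hmh⟩ := hMS h hh
  classical
  -- the block of a vertex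
  have hex : ∀ x, ∃ i, x ≤ m i := fun x => ⟨x, hmono.id_le x⟩
  obtain ⟨ix, hix, hixs⟩ : ∃ ix : ℕ → ℕ, Computable ix ∧ ∀ x, x ≤ m (ix x) ∧ ∀ j < ix x, m j < x := by
    refine total_select (r := fun x i => x ≤ m i ∧ ∀ j < i, m j < x) ?_ ?_
    · refine RE.and (RE.le (by fun_prop) (hm.comp (by fun_prop))) ?_
      refine RE.all_lt (p := fun (x : ℕ × ℕ) j => m j < x.1) ?_ (by fun_prop)
      exact RE.lt (hm.comp (by fun_prop)) (by fun_prop)
    · intro x
      refine ⟨Nat.find (hex x), Nat.find_spec (hex x), fun j hj => ?_⟩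
      exact not_le.mp (Nat.find_min (hex x) hj)
  have hixle : ∀ x i, x ≤ m i → ix x ≤ i := by
    intro x i hi
    by_contra hc
    exact absurd ((hixs x).2 i (not_le.mp hc)) (not_lt.mpr hi)
  have hnb : ∀ x y, G.Adj x y → ix y ≤ ix x + 1 := by
    intro x y hxy
    exact hixle y _ ((hb x y hxy).trans (hmh _ _ (hixs x).1))
  -- colourings of the initial segments
  obtain ⟨K, hK, hKs⟩ : ∃ K : ℕ → List Bool, Computable K ∧ ∀ i, (∀ x < m i + 1, ∀ y < m i + 1,
      ¬ G.Adj x y ∨ ((K i)[x]? ≠ (K i)[y]? ∧ (K i)[x]? ≠ none ∧ (K i)[y]? ≠ none)) := by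
    refine total_select (r := fun i (L : List Bool) => ∀ x < m i + 1, ∀ y < m i + 1,
      ¬ G.Adj x y ∨ (L[x]? ≠ L[y]? ∧ L[x]? ≠ none ∧ L[y]? ≠ none)) ?_ ?_
    · refine RE.all_lt (p := fun (w : ℕ × List Bool) x => ∀ y < m w.1 + 1,
        ¬ G.Adj x y ∨ (w.2[x]? ≠ w.2[y]? ∧ w.2[x]? ≠ none ∧ w.2[y]? ≠ none)) ?_ ?_
      · refine RE.all_lt (p := fun (w : (ℕ × List Bool) × ℕ) y =>
          ¬ G.Adj w.2 y ∨ (w.1.2[w.2]? ≠ w.1.2[y]? ∧ w.1.2[w.2]? ≠ none ∧ w.1.2[y]? ≠ none)) ?_ ?_
        · refine RE.or ?_ (RE.and (RE.ne ?_ ?_) (RE.and (RE.ne ?_ ?_) (RE.ne ?_ ?_)))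
          · have h1 : REPred fun p : ℕ × ℕ => ¬ G.Adj p.1 p.2 := RE.of_comput hadj.not
            exact RE.comp h1 (f := fun w : ((ℕ × List Bool) × ℕ) × ℕ => (w.1.2, w.2)) (by fun_prop)
          all_goals fun_prop
        · have : Computable fun w : (ℕ × List Bool) × ℕ => m w.1.1 := hm.comp (by fun_prop)
          fun_prop
      · have : Computable fun w : ℕ × List Bool => m w.1 := hm.comp (by fun_prop)
        fun_prop
    · intro i
      obtain ⟨C⟩ := hcol
      refine ⟨(List.range (m i + 1)).map (fun x => decide (C x = 1)), fun x hx y hy => ?_⟩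
      by_cases hxy : G.Adj x y
      · right
        have e : ∀ z < m i + 1, ((List.range (m i + 1)).map (fun x => decide (C x = 1)))[z]? =
            some (decide (C z = 1)) := by
          intro z hz
          rw [List.getElem?_map, List.getElem?_range hz]
          rfl
        rw [e x hx, e y hy]
        refine ⟨?_, by simp, by simp⟩
        have h1 := C.valid hxy
        intro h2
        have h3 : decide (C x = 1) = decide (C y = 1) := Option.some.inj h2
        rw [decide_eq_decide] at h3
        apply h1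
        generalize C x = a at *
        generalize C y = b at *
        fin_cases a <;> fin_cases b <;> simp_all
      · left; exact hxy
  -- the bit
  let bit : ℕ → ℕ := fun x => if (K (ix x))[x]? = some true then 1 else 0
  have hbit : Computable bit := by
    refine cite (p := fun x => (K (ix x))[x]? = some true) ?_ (Computable.const 1) (Computable.const 0)
    have h1 : Computable fun x => K (ix x) := hK.comp hix
    exact RE.cp_eq (by fun_prop) (by fun_prop)
  refine ⟨fun x => 2 * (ix x % 2) + bit x, ?_, ?_, ?_⟩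
  · have h1 := mod2 hix
    fun_prop
  · intro x
    have h1 : bit x ≤ 1 := by
      change (if _ then 1 else 0) ≤ 1
      split_ifs <;> omega
    have h2 := Nat.mod_lt (ix x) (by norm_num : 0 < 2)
    change 2 * (ix x % 2) + bit x < 4
    omega
  · intro x y hxy heq
    have h1 : ∀ z, bit z ≤ 1 := by
      intro z
      change (if _ then 1 else 0) ≤ 1
      split_ifs <;> omega
    have b1 := h1 x
    have b2 := h1 y
    have n1 := hnb x y hxy
    have n2 := hnb y x hxy.symm
    change 2 * (ix x % 2) + bit x = 2 * (ix y % 2) + bit y at heq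
    have hixe : ix x = ix y := by omega
    have hbe : bit x = bit y := by omega
    have hx := (hixs x).1
    have hy := (hixs y).1
    rw [← hixe] at hy
    rcases hKs (ix x) x (by omega) y (by omega) with h2 | ⟨h2, h3, h4⟩
    · exact h2 hxy
    · change (if (K (ix x))[x]? = some true then 1 else 0) =
        (if (K (ix y))[y]? = some true then 1 else 0) at hbe
      rw [← hixe] at hbe
      generalize (K (ix x))[x]? = a at *
      generalize (K (ix x))[y]? = b at *
      rcases a with _ | a
      · exact h3 rfl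
      · rcases b with _ | b
        · exact h4 rfl
        · cases a <;> cases b <;> simp_all

end Pool.Agent.T2H90.GQ
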