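import Pool.Agent.T2H90.GQ.Stm

set_option autoImplicit false

namespace Pool.Agent.T2H90.GQ

open Encodable Pool.Agent.Helper578.JD Pool.Agent.Helper578.JD.Defs Pool.Agent.Helper578.JD.Oracle
  Pool.Agent.Helper578.JD.RE

namespace PkgD2

lemma getD_comp {α : Type} [Primcodable α] {f : α → Option (List Bool)} (hf : Computable f) :
    Computable fun a => (f a).getD [] := Computable.option_getD hf (Computable.const [])

lemma str_comp {α : Type} [Primcodable α] {f : α → ℕ} (hf : Computable f) :
    Computable fun a => str (f a) := by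
  unfold str
  exact getD_comp (by fun_prop)

/-- numerical version of `step` -/
noncomputable def stepN (w : ℕ) : ℕ :=
  encode (step w.unpair.2.unpair.1 ((decode (α := List Bool) w.unpair.2.unpair.2).getD []))

lemma step_eq_iff (e : ℕ) (σ τ : List Bool) : step e σ = τ ↔
    ((∃ m, hit e σ m = true ∧ (∀ m' < m, hit e σ m' = false) ∧ τ = σ ++ str m ++ [false]) ∨
      (¬ (∃ m, hit e σ m = true) ∧ τ = σ ++ [false])) := by
  classical
  unfold step
  by_cases h : ∃ m, hit e σ m = true
  · rw [dif_pos h]
    constructor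
    · intro h1
      left
      refine ⟨Nat.find h, Nat.find_spec h, fun m' hm' => ?_, ?_⟩
      · have := Nat.find_min h hm'
        exact Bool.eq_false_iff.mpr this
      · convert h1.symm using 3
    · rintro (⟨m, hm, hmin, hτ⟩ | ⟨h1, _⟩)
      · have : Nat.find h = m := by
          rw [Nat.find_eq_iff]
          refine ⟨hm, fun n hn => ?_⟩
          rw [hmin n hn]
          simp
        rw [hτ, ← this]
      · exact absurd h h1
  · rw [dif_neg h]
    constructor
    · intro h1
      exact Or.inr ⟨h, h1.symm⟩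
    · rintro (⟨m, hm, _⟩ | ⟨_, h1⟩)
      · exact absurd ⟨m, hm⟩ h
      · exact h1.symm

lemma graph (hHC : S_HC) (hKM : S_KM) :
    REIn Kset fun q : (ℕ × List Bool) × List Bool => step q.1.1 q.1.2 = q.2 := by
  have hS : REPred fun a : ℕ × List Bool => ∃ m, hit a.1 a.2 m = true := by
    refine RE.exN (p := fun (a : ℕ × List Bool) m => hit a.1 a.2 m = true) ?_
    exact RE.of_bool hHC
  obtain ⟨f, hf, hfS⟩ := hKM (ℕ × List Bool) _ hS
  have h1 : REIn Kset fun q : (ℕ × List Bool) × List Bool =>
      ((∃ m, hit q.1.1 q.1.2 m = true ∧ (∀ m' < m, hit q.1.1 q.1.2 m' = false) ∧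
        q.2 = q.1.2 ++ str m ++ [false]) ∨
      (f q.1 ∉ Kset ∧ q.2 = q.1.2 ++ [false])) := by
    refine REIn.or ?_ ?_
    · refine REIn.of_re ?_
      refine RE.exN (p := fun (q : (ℕ × List Bool) × List Bool) m => hit q.1.1 q.1.2 m = true ∧
        (∀ m' < m, hit q.1.1 q.1.2 m' = false) ∧ q.2 = q.1.2 ++ str m ++ [false]) ?_
      refine RE.and ?_ (RE.and ?_ ?_)
      · exact RE.of_bool (hHC.comp (f := fun p : (ℕ × List Bool) × ℕ => hit p.1.1 p.1.2 p.2)
          (g := fun w : ((ℕ × List Bool) × List Bool) × ℕ => (w.1.1, w.2)) (by fun_prop))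
      · refine RE.all_lt (p := fun (w : ((ℕ × List Bool) × List Bool) × ℕ) m' =>
          hit w.1.1.1 w.1.1.2 m' = false) ?_ (by fun_prop)
        refine RE.eq ?_ (by fun_prop)
        exact hHC.comp (f := fun p : (ℕ × List Bool) × ℕ => hit p.1.1 p.1.2 p.2)
          (g := fun w : (((ℕ × List Bool) × List Bool) × ℕ) × ℕ => (w.1.1.1, w.2)) (by fun_prop)
      · have h2 : Computable fun w : ((ℕ × List Bool) × List Bool) × ℕ => str w.2 :=
          str_comp (by fun_prop)
        exact RE.eq (by fun_prop) (by fun_prop)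
    · refine REIn.and (REIn.not_mem (hf.comp (by fun_prop))) (REIn.of_re ?_)
      exact RE.eq (by fun_prop) (by fun_prop)
  refine h1.of_eq fun q => ?_
  rw [step_eq_iff, ← hfS q.1]

lemma stepN_tot (hHC : S_HC) (hKM : S_KM) : TotIn Kset stepN := by
  refine recursiveIn_of_graph ?_
  have h1 : REIn Kset fun p : ℕ × ℕ => ∃ τ : List Bool,
      step p.1.unpair.2.unpair.1 ((decode (α := List Bool) p.1.unpair.2.unpair.2).getD []) = τ ∧
        encode τ = p.2 := by
    refine REIn.ex (S := fun (p : ℕ × ℕ) (τ : List Bool) =>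
      step p.1.unpair.2.unpair.1 ((decode (α := List Bool) p.1.unpair.2.unpair.2).getD []) = τ ∧
        encode τ = p.2) ?_
    refine REIn.and ?_ (REIn.of_re (RE.eq (by fun_prop) (by fun_prop)))
    have h2 : Computable fun w : (ℕ × ℕ) × List Bool =>
        ((decode (α := List Bool) w.1.1.unpair.2.unpair.2).getD []) := getD_comp (by fun_prop)
    exact (graph hHC hKM).comp (f := fun w : (ℕ × ℕ) × List Bool => ((w.1.1.unpair.2.unpair.1,
      (decode (α := List Bool) w.1.1.unpair.2.unpair.2).getD []), w.2)) (by fun_prop)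
  refine h1.of_eq fun p => ?_
  unfold stepN
  constructor
  · rintro ⟨τ, h, h'⟩
    rw [h]; exact h'
  · intro h
    exact ⟨_, rfl, h⟩

lemma stg_tot (hHC : S_HC) (hKM : S_KM) : TotIn Kset fun n => encode (stg n) := by
  have h1 := (TotIn.prec (A := Kset) (TotIn.of_comp (Computable.const (encode ([] : List Bool))))
    (stepN_tot hHC hKM)).comp (g := fun n => Nat.pair 0 n) (TotIn.of_comp (by fun_prop))
  have h2 : (fun n : ℕ => encode (stg n)) = fun n => Nat.rec (motive := fun _ => ℕ)
      (encode ([] : List Bool)) (fun y IH => stepN (Nat.pair (Nat.pair 0 n).unpair.1 (Nat.pair y IH)))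
      (Nat.pair 0 n).unpair.2 := by
    funext n
    rw [Nat.unpair_pair]
    change encode (stg n) = Nat.rec (motive := fun _ => ℕ)
      (encode ([] : List Bool)) (fun y IH => stepN (Nat.pair 0 (Nat.pair y IH))) n
    induction n with
    | zero => rfl
    | succ n ih =>
      change encode (step n (stg n)) = stepN (Nat.pair 0 (Nat.pair n (Nat.rec (motive := fun _ => ℕ)
        (encode ([] : List Bool)) (fun y IH => stepN (Nat.pair 0 (Nat.pair y IH))) n)))
      rw [← ih]
      unfold stepN
      rw [Nat.unpair_pair, Nat.unpair_pair]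
      simp
  rw [h2]
  exact h1

end PkgD2

open PkgD2 in
theorem pD2 (hHC : S_HC) (hKM : S_KM) (hPRE : S_PRE) : S_D2 := by
  have hg : REIn Kset fun p : ℕ × ℕ => p.2 = encode (stg p.1) := by
    have h := graph_of_recursiveIn (stg_tot hHC hKM)
    refine h.of_eq fun p => ?_
    exact Part.mem_some_iff
  have hcase : ∀ (P : ℕ × ℕ → Prop), REPred P →
      REIn Kset fun n : ℕ => ∃ c : ℕ, c = encode (stg (n + 1)) ∧ P (n, c) := by
    intro P hP
    refine REIn.ex (S := fun (n : ℕ) (c : ℕ) => c = encode (stg (n + 1)) ∧ P (n, c)) ?_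
    refine REIn.and ?_ (REIn.of_re ?_)
    · exact hg.comp (f := fun w : ℕ × ℕ => (w.1 + 1, w.2)) (by fun_prop)
    · exact RE.comp hP (by fun_prop)
  unfold S_D2
  rw [turingReducible_iff]
  have hgetD : Computable fun w : ℕ × ℕ => ((decode (α := List Bool) w.2).getD []) :=
    getD_comp (by fun_prop)
  constructor
  · refine (hcase (fun w => ((decode (α := List Bool) w.2).getD [])[w.1]? = some true)
      (RE.eq (by fun_prop) (by fun_prop))).of_eq fun n => ?_
    constructor
    · rintro ⟨c, rfl, h⟩
      change (stg (n + 1))[n]? = some true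
      simpa using h
    · intro h
      refine ⟨_, rfl, ?_⟩
      have h' : (stg (n + 1))[n]? = some true := h
      simpa using h'
  · refine (hcase (fun w => ((decode (α := List Bool) w.2).getD [])[w.1]? ≠ some true)
      (RE.ne (by fun_prop) (by fun_prop))).of_eq fun n => ?_
    constructor
    · rintro ⟨c, rfl, h⟩ h2
      have h' : (stg (n + 1))[n]? = some true := h2
      apply h
      simpa using h'
    · intro h
      refine ⟨_, rfl, fun h2 => h ?_⟩
      change (stg (n + 1))[n]? = some true
      simpa using h2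

end Pool.Agent.T2H90.GQ
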