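import Pool.Agent.T2H90.GQ.Stm

set_option autoImplicit false

namespace Pool.Agent.T2H90.GQ

open Encodable Pool.Agent.Helper578.JD Pool.Agent.Helper578.JD.Defs Pool.Agent.Helper578.JD.Oracle
  Pool.Agent.Helper578.JD.RE

theorem pGN (hPRE : S_PRE) : S_GN := by
  classical
  intro S hS
  obtain ⟨-, -, hPre, hApp⟩ := hPRE
  obtain ⟨e, he⟩ := wst_univ hS
  by_cases h : ∃ m, hit e (stg e) m = true
  · left
    refine ⟨stg e ++ str (Nat.find h), ?_, ?_⟩
    · have h1 : stg (e + 1) = (stg e ++ str (Nat.find h)) ++ [false] := by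
        show step e (stg e) = _
        unfold step
        rw [dif_pos h]
      have h2 := hPre (e + 1)
      rw [h1] at h2
      exact hApp _ _ h2
    · exact (he _).2 ⟨_, Nat.find_spec h⟩
  · right
    refine ⟨e, fun ρ hρ => h ?_⟩
    obtain ⟨s, hs⟩ := (he _).1 hρ
    refine ⟨Nat.pair (encode ρ) s, ?_⟩
    unfold hit str
    simp only [Nat.unpair_pair, encodek, Option.getD_some]
    exact hs

end Pool.Agent.T2H90.GQ
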