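import Pool.Agent.T2H90.GQ.Stm

set_option autoImplicit false

namespace Pool.Agent.T2H90.GQ

open Encodable Pool.Agent.Helper578.JD Pool.Agent.Helper578.JD.Defs Pool.Agent.Helper578.JD.Oracle
  Pool.Agent.Helper578.JD.RE

theorem pHC : S_HC := by
  unfold S_HC hit
  have hs : Computable fun p : (ℕ × List Bool) × ℕ => str p.2 := by
    unfold str
    exact Primrec.option_getD.to_comp.comp (by fun_prop) (by fun_prop)
  exact wst_comp.comp (f := fun q : (ℕ × ℕ) × List Bool => wst (List Bool) q.1.1 q.1.2 q.2)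
    (g := fun p : (ℕ × List Bool) × ℕ => ((p.1.1, p.2.unpair.2), p.1.2 ++ str p.2)) (by fun_prop)

end Pool.Agent.T2H90.GQ
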