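import Pool.Agent.T2H90.GQ.Stm

/-!
# Package KM : every r.e. predicate is many-one reducible to the halting set
-/

set_option autoImplicit false

namespace Pool.Agent.T2H90.GQ

open Encodable Pool.Agent.Helper578.JD Pool.Agent.Helper578.JD.Defs Pool.Agent.Helper578.JD.Oracle
  Pool.Agent.Helper578.JD.RE
open Nat.Partrec (Code)

theorem pKM : S_KM := by
  intro α _ S hS
  have hP : REPred fun x : α × ℕ => S x.1 :=
    Pool.Agent.Helper578.JD.RE.comp hS Computable.fst
  obtain ⟨c, hc⟩ := Nat.Partrec.Code.exists_code.1 hP
  refine ⟨fun a => encode (Code.curry c (encode a)), ?_, fun a => ?_⟩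
  · exact Computable.encode.comp ((Code.primrec₂_curry.to_comp).comp (Computable.const c)
      Computable.encode)
  · change S a ↔ ((Denumerable.ofNat Code (encode (Code.curry c (encode a)))).eval
      (encode (Code.curry c (encode a)))).Dom
    rw [Denumerable.ofNat_encode, Code.eval_curry]
    generalize encode (Code.curry c (encode a)) = n
    have h0 : Nat.pair (encode a) n = encode (a, n) := rfl
    rw [h0, hc]
    simp only [encodek, Part.coe_some, Part.bind_some, Part.map_Dom]
    constructor
    · intro h; exact ⟨h, trivial⟩
    · rintro ⟨h, -⟩; exact h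

end Pool.Agent.T2H90.GQ
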