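import Pool.Agent.T2H90.GQ.Stm

/-!
# Package MS : a fast growing computable sequence
-/

set_option autoImplicit false

namespace Pool.Agent.T2H90.GQ

open Encodable Pool.Agent.Helper578.JD Pool.Agent.Helper578.JD.Defs Pool.Agent.Helper578.JD.Oracle
  Pool.Agent.Helper578.JD.RE

namespace PkgMS

/-- partial sums -/
def H (h : ℕ → ℕ) (n : ℕ) : ℕ := Nat.rec (motive := fun _ => ℕ) (h 0) (fun y IH => IH + h (y + 1)) n

/-- the sequence -/
def M (h : ℕ → ℕ) (n : ℕ) : ℕ :=
  Nat.rec (motive := fun _ => ℕ) 0 (fun _ IH => IH + 1 + H h IH) n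

theorem comp_H {h : ℕ → ℕ} (hh : Computable h) : Computable (H h) := by
  have hadd : Computable₂ fun (_ : ℕ) (y : ℕ × ℕ) => y.2 + h (y.1 + 1) := by
    have h1 : Computable fun z : ℕ × (ℕ × ℕ) => h (z.2.1 + 1) :=
      hh.comp (Primrec.succ.to_comp.comp (Computable.fst.comp Computable.snd))
    exact Primrec.nat_add.to_comp.comp (Computable.snd.comp Computable.snd) h1
  exact Computable.nat_rec (f := fun n : ℕ => n) (g := fun _ : ℕ => h 0)
    (h := fun (_ : ℕ) (y : ℕ × ℕ) => y.2 + h (y.1 + 1)) Computable.id (Computable.const _) hadd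

theorem comp_M {h : ℕ → ℕ} (hh : Computable h) : Computable (M h) := by
  have hadd : Computable₂ fun (_ : ℕ) (y : ℕ × ℕ) => y.2 + 1 + H h y.2 := by
    have h1 : Computable fun z : ℕ × (ℕ × ℕ) => z.2.2 := Computable.snd.comp Computable.snd
    exact Primrec.nat_add.to_comp.comp (Primrec.succ.to_comp.comp h1) ((comp_H hh).comp h1)
  exact Computable.nat_rec (f := fun n : ℕ => n) (g := fun _ : ℕ => 0)
    (h := fun (_ : ℕ) (y : ℕ × ℕ) => y.2 + 1 + H h y.2) Computable.id (Computable.const _) hadd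

theorem le_H (h : ℕ → ℕ) (n : ℕ) : ∀ x ≤ n, h x ≤ H h n := by
  induction n with
  | zero =>
    intro x hx
    obtain rfl : x = 0 := by omega
    exact le_refl _
  | succ n ih =>
    intro x hx
    change h x ≤ H h n + h (n + 1)
    rcases Nat.lt_or_ge n x with h1 | h1
    · obtain rfl : x = n + 1 := by omega
      omega
    · have := ih x h1
      omega

theorem M_succ (h : ℕ → ℕ) (n : ℕ) : M h (n + 1) = M h n + 1 + H h (M h n) := rfl

end PkgMS

open PkgMS in
theorem pMS : S_MS := by
  intro h hh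
  refine ⟨M h, comp_M hh, strictMono_nat_of_lt_succ fun n => ?_, fun i x hx => ?_⟩
  · rw [M_succ]
    omega
  · rw [M_succ]
    have := le_H h (M h i) x hx
    omega

end Pool.Agent.T2H90.GQ
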