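import Pool.Agent.T2H90.GQ.Stm

/-!
# Package NC : the generic set is not computable
-/

set_option autoImplicit false

namespace Pool.Agent.T2H90.GQ

open Encodable Pool.Agent.Helper578.JD Pool.Agent.Helper578.JD.Defs Pool.Agent.Helper578.JD.Oracle
  Pool.Agent.Helper578.JD.RE

theorem pNC (hPRE : S_PRE) (hGN : S_GN) : S_NC := by
  intro hc
  obtain ⟨f, hf, hfe⟩ := ComputablePred.computable_iff.1 hc
  have hfe' : ∀ n, n ∈ gA ↔ f n = true := fun n => by
    have := congrFun hfe n
    exact iff_of_eq this
  have hre : REPred fun τ : List Bool => ∃ i : ℕ, τ[i]? = some (!(f i)) := by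
    refine Pool.Agent.Helper578.JD.RE.exN (p := fun (τ : List Bool) (i : ℕ) => τ[i]? = some (!(f i))) ?_
    refine Pool.Agent.Helper578.JD.RE.eq (f := fun x : List Bool × ℕ => x.1[x.2]?)
      (g := fun x : List Bool × ℕ => some (!(f x.2))) ?_ ?_
    · exact Computable.list_getElem?.comp Computable.fst Computable.snd
    · exact Computable.option_some.comp (Primrec.not.to_comp.comp (hf.comp Computable.snd))
  rcases hGN _ hre with ⟨τ, hτ, i, hi⟩ | ⟨n, hn⟩
  · have h1 := hτ i _ hi
    rw [hfe' i] at h1
    cases hfi : f i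
    · rw [hfi] at h1
      simp at h1
    · rw [hfi] at h1
      simp at h1
  · apply hn [!(f (stg n).length)]
    refine ⟨(stg n).length, ?_⟩
    simp

end Pool.Agent.T2H90.GQ
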