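import Pool.Agent.T2H90.GQ.Stm

set_option autoImplicit false

namespace Pool.Agent.T2H90.GQ

open Encodable Pool.Agent.Helper578.JD Pool.Agent.Helper578.JD.Defs Pool.Agent.Helper578.JD.Oracle
  Pool.Agent.Helper578.JD.RE

namespace PkgPRE

theorem step_eq (e : ℕ) (σ : List Bool) : ∃ ρ, step e σ = σ ++ ρ ∧ 1 ≤ ρ.length := by
  classical
  unfold step
  split_ifs with h
  · exact ⟨str (Nat.find h) ++ [false], by rw [List.append_assoc], by simp⟩
  · exact ⟨[false], rfl, by simp⟩

theorem stg_succ (n : ℕ) : ∃ ρ, stg (n + 1) = stg n ++ ρ ∧ 1 ≤ ρ.length := step_eq n (stg n)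

theorem len (n : ℕ) : n ≤ (stg n).length := by
  induction n with
  | zero => exact Nat.zero_le _
  | succ n ih =>
    obtain ⟨ρ, h1, h2⟩ := stg_succ n
    rw [h1, List.length_append]
    omega

theorem mono (n k : ℕ) : ∃ ρ, stg (n + k) = stg n ++ ρ := by
  induction k with
  | zero => exact ⟨[], by simp⟩
  | succ k ih =>
    obtain ⟨ρ, h⟩ := ih
    obtain ⟨ρ', h1, -⟩ := stg_succ (n + k)
    refine ⟨ρ ++ ρ', ?_⟩
    rw [← List.append_assoc, ← h]
    exact h1

theorem get_of_le {n m : ℕ} (h : n ≤ m) {i : ℕ} {b : Bool} (hb : (stg n)[i]? = some b) :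
    (stg m)[i]? = some b := by
  obtain ⟨k, rfl⟩ := Nat.exists_eq_add_of_le h
  obtain ⟨ρ, hρ⟩ := mono n k
  rw [hρ, List.getElem?_append_left]
  · exact hb
  · exact (List.getElem?_eq_some_iff.1 hb).1

end PkgPRE

theorem pPRE : S_PRE := by
  refine ⟨PkgPRE.len, fun n => ?_, ?_, ?_⟩
  · obtain ⟨ρ, h, -⟩ := PkgPRE.stg_succ n
    exact ⟨ρ, h⟩
  · intro n i b hb
    have h1 : i < (stg (i + 1)).length := PkgPRE.len (i + 1)
    obtain ⟨b', hb'⟩ : ∃ b', (stg (i + 1))[i]? = some b' := ⟨_, List.getElem?_eq_getElem h1⟩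
    have h2 : b = b' := by
      rcases le_total n (i + 1) with h | h
      · have := PkgPRE.get_of_le h hb
        rw [hb'] at this
        exact (Option.some.inj this).symm
      · have := PkgPRE.get_of_le h hb'
        rw [hb] at this
        exact Option.some.inj this
    subst h2
    unfold gA
    show b = true ↔ (stg (i + 1))[i]? = some true
    rw [hb']
    constructor
    · rintro rfl; rfl
    · intro h; exact Option.some.inj h
  · intro τ ρ h i b hb
    refine h i b ?_
    rw [List.getElem?_append_left]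
    · exact hb
    · exact (List.getElem?_eq_some_iff.1 hb).1

end Pool.Agent.T2H90.GQ
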