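import Pool.Agent.Helper578.JD.Oracle

/-!
# Project GQ (helper90): a question of Gasarch on A-computable graphs (MP_354b3e_lc, frozen statement S14568)

Answer: no. If `G` is a computable locally finite graph then `x ↦ N(x)` has c.e. degree: it is computable from the c.e. set
`{(x, n) : x has a neighbour > n}`. So if `A` computes no noncomputable c.e. set (for instance a 1-generic `A ≤ ∅'`), then every
`A`-computable graph is highly computable, and a 2-colourable highly computable graph has a computable 4-colouring.

Library: `Helper578.JD.RE` (closure properties of `REPred`: `RE.comp`, `and`, `or`, `ex`, `exN`, `all_lt`, `all_mem`, `of_bool`, `cp_of_re`,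
`computable_of_graph` (a function with r.e. graph is computable), `re_iff`, `fun_prop` for `Computable`; `wst α e s x`: stage `s` of the `e`-th r.e. subset of `α`,
`wst_comp`, `wst_univ`) and `Helper578.JD.Oracle` (`REIn A S`: `S` is r.e. in `A`, i.e. `S a ↔ ∃ c, R a c ∧ Ok A c` with `R` r.e. and `c` a finite piece of
information about `A`; closure properties; `turingReducible_iff`, `turingReducible_fun_iff`, `TotIn`, `recursiveIn_of_graph`).

Package `X`: file `Pool/Agent/T2H90/GQ/PX.lean`, theorem `pX : S_X` with the other statements it uses as hypotheses in the order given in brackets,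
namespace `Pool.Agent.T2H90.GQ` (lemmas in the sub-namespace `PkgX`).
-/

set_option autoImplicit false

namespace Pool.Agent.T2H90.GQ

open Encodable Pool.Agent.Helper578.JD Pool.Agent.Helper578.JD.Defs Pool.Agent.Helper578.JD.Oracle
  Pool.Agent.Helper578.JD.RE

/-- the halting set -/
def Kset : Set ℕ := {n | ((Denumerable.ofNat Nat.Partrec.Code n).eval n).Dom}

/-- the string coded by the first component of `m` -/
def str (m : ℕ) : List Bool := (decode (α := List Bool) m.unpair.1).getD []

/-- `m` codes a string `ρ` and a stage at which `σ ++ ρ` is in the `e`-th r.e. set of strings -/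
def hit (e : ℕ) (σ : List Bool) (m : ℕ) : Bool := wst (List Bool) e m.unpair.2 (σ ++ str m)

open Classical in
/-- one step of the construction of the generic set -/
noncomputable def step (e : ℕ) (σ : List Bool) : List Bool :=
  if h : ∃ m, hit e σ m = true then σ ++ str (Nat.find h) ++ [false] else σ ++ [false]

/-- the stages of the construction -/
noncomputable def stg : ℕ → List Bool
  | 0 => []
  | e + 1 => step e (stg e)

/-- the generic set -/
def gA : Set ℕ := {n | (stg (n + 1))[n]? = some true}

/-- `τ` is an initial segment of `gA` -/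
def Pre (τ : List Bool) : Prop := ∀ (i : ℕ) (b : Bool), τ[i]? = some b → (b = true ↔ i ∈ gA)

/-- HC. `hit` is computable (`wst_comp`, `fun_prop`). -/
def S_HC : Prop := Computable fun p : (ℕ × List Bool) × ℕ => hit p.1.1 p.1.2 p.2

/-- KM. Every r.e. predicate is many-one reducible to the halting set. Proof: `S` as a partial recursive function `p : α × ℕ →. ℕ`, `(a, n) ↦ 0` if `S a`; code it (`Code.exists_code`) and use
`Nat.Partrec.Code.curry` (s-m-n, computable: `Code.primrec₂_curry` or similar), `f a = encode (curry c (encode a))`. (There may be such a lemma somewhere in `Pool/Agent`.) -/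
def S_KM : Prop := ∀ (α : Type) [Primcodable α] (S : α → Prop), REPred S →
  ∃ f : α → ℕ, Computable f ∧ ∀ a, S a ↔ f a ∈ Kset

/-- PRE. Each stage is a proper initial segment of the next one, so `stg n` has length `≥ n` and is an initial segment of `gA`. -/
def S_PRE : Prop := (∀ n, n ≤ (stg n).length) ∧ (∀ n, ∃ ρ, stg (n + 1) = stg n ++ ρ) ∧ (∀ n, Pre (stg n)) ∧
  (∀ τ ρ : List Bool, Pre (τ ++ ρ) → Pre τ)

/-- D2 [HC, KM, PRE]. `gA` is computable from the halting set. Proof: `turingReducible_iff`. The graph of `step` is r.e. in `Kset`: `step e σ = τ` iff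
(`∃ m, hit e σ m = true ∧ (∀ m' < m, hit e σ m' = false) ∧ τ = σ ++ str m ++ [false]`) or (`¬ (∃ m, hit e σ m = true) ∧ τ = σ ++ [false]`); the first part is r.e. (`REIn.of_re`), for the second use KM for
`S (e, σ) = ∃ m, hit e σ m = true` and `REIn.not_mem`. Then `n ∈ gA` iff `∃ L : List (List Bool), L[0]? = some [] ∧ (∀ i < n + 1, the graph of step for L[i], L[i+1]) ∧ L[n+1][n] = some true`
(`REIn.ex`, `REIn.all_lt`), the same for `n ∉ gA` with `some false` (`(stg (n+1))[n]?` is not `none` by PRE). (Or `TotIn.prec` with `recursiveIn_of_graph`.) -/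
def S_D2 : Prop := TuringReducible (chi gA) (chi Kset)

/-- GN [PRE]. Genericity. Proof: `wst_univ` gives `e` with `S τ ↔ ∃ s, wst (List Bool) e s τ = true`. If `∃ m, hit e (stg e) m = true` then `τ = stg e ++ str (Nat.find h)` is an initial segment of `stg (e + 1)`, hence of `gA`, and `S τ`.
Otherwise no `stg e ++ ρ` is in `S` (take `m = Nat.pair (encode ρ) s`). -/
def S_GN : Prop := ∀ S : List Bool → Prop, REPred S → (∃ τ, Pre τ ∧ S τ) ∨ ∃ n, ∀ ρ, ¬ S (stg n ++ ρ)

/-- NC [PRE, GN]. `gA` is not computable. Proof: if it is, `S τ = ∃ i < τ.length, τ[i]? = some (! decide (i ∈ gA))` is r.e. (computable); no initial segment of `gA` is in `S`, but every string has an extension in `S`, contradiction to GN. -/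
def S_NC : Prop := ¬ ComputablePred (fun n : ℕ => n ∈ gA)

/-- CE [PRE, GN]. `gA` computes no noncomputable c.e. set. Proof: `REIn gA (¬ C)` gives an r.e. `R` with `¬ C x ↔ ∃ c, R x c ∧ Ok gA c`. For a string `τ` let `OkS τ c`: `(∀ x ∈ c.1, τ[x]? = some true) ∧ (∀ x ∈ c.2, τ[x]? = some false)`; if `Pre τ` and
`OkS τ c` then `Ok gA c`. `S τ = ∃ x c, C x ∧ R x c ∧ OkS τ c` is r.e. No `τ` with `Pre τ` is in `S`. By GN there is `n` with `¬ S (stg n ++ ρ)` for all `ρ`. Then `¬ C x ↔ ∃ ρ c, R x c ∧ OkS (stg n ++ ρ) c`: if `¬ C x` take a correct `c` and `ρ` with `stg n ++ ρ = stg k`, `k` larger than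
`n` and all the numbers in `c` (PRE). So `¬ C` is r.e. and `C` is computable (`RE.cp_of_re`). -/
def S_CE : Prop := ∀ C : ℕ → Prop, REPred C → REIn gA (fun x => ¬ C x) → ComputablePred C

/-- BD [CE]. A `gA`-computable graph has a computable bound for the neighbours. Proof: `C z = ∃ y, z.unpair.2 < y ∧ G.Adj z.unpair.1 y` is r.e. The instance is `Finset.encodable`: `encode (N x)` is (by definition) the code of the sorted list of the elements of `N x`, so with
`dl k = (decode (α := List ℕ) k).getD []` (computable) the elements of `dl (encode (N x))` are those of `N x`. `¬ C z ↔ ∃ k, encode (N z.unpair.1) = k ∧ ∀ y ∈ dl k, y ≤ z.unpair.2` is r.e. in `gA` by `turingReducible_fun_iff`, `REIn.ex`, `REIn.and`, `REIn.of_re`, `RE.all_mem`.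
By CE `C` is computable; for every `x` there is `n` with `¬ C (pair x n)` as `N x` is finite; `h x` = the least such `n` (`computable_of_graph` or `Partrec.rfind`). -/
def S_BD : Prop := ∀ (G : SimpleGraph ℕ) (N : ℕ → Finset ℕ), ComputablePred (fun p : ℕ × ℕ => G.Adj p.1 p.2) →
  (∀ x y : ℕ, G.Adj x y ↔ y ∈ N x) → TuringReducible (fun x : ℕ => Part.some (encode (N x))) (chi gA) →
  ∃ h : ℕ → ℕ, Computable h ∧ ∀ x y, G.Adj x y → y ≤ h x

/-- MS. Proof: `m 0 = 0`, `m (i + 1) = max (m i + 1) (max_{x ≤ m i} h x)`; computable by `Computable.nat_rec` (first `g n = max_{x ≤ n} h x` by `nat_rec`, then `m` by `nat_rec`). -/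
def S_MS : Prop := ∀ h : ℕ → ℕ, Computable h → ∃ m : ℕ → ℕ, Computable m ∧ StrictMono m ∧
  ∀ i x, x ≤ m i → h x ≤ m (i + 1)

/-- CO [MS]. A 2-colourable graph with computable adjacency relation and a computable bound for the neighbours has a computable 4-colouring. Proof. `m` from MS; `x, y` adjacent, `x ≤ m i` implies `y ≤ m (i + 1)`. `i(x)` = least `i` with `x ≤ m i`; adjacent vertices have `|i(x) - i(y)| ≤ 1`.
`K i` = least `n` such that `∀ x ≤ m i, ∀ y ≤ m i, G.Adj x y → n.testBit x ≠ n.testBit y` (exists: `n = ∑` of `2 ^ x` over the `x ≤ m i` of colour 1 in a 2-colouring; e.g. by `Nat.testBit` extensionality lemmas, or use a list of Booleans instead of `n`). `c x = 2 * (i(x) % 2) + (if (K (i(x))).testBit x then 1 else 0) < 4`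
is a proper colouring and computable (all the quantifiers are bounded; `computable_of_graph`, `all_lt`, `RE.cp_of_re` help). -/
def S_CO : Prop := ∀ (G : SimpleGraph ℕ) (h : ℕ → ℕ), ComputablePred (fun p : ℕ × ℕ => G.Adj p.1 p.2) →
  Computable h → (∀ x y, G.Adj x y → y ≤ h x) → G.Colorable 2 →
  ∃ c : ℕ → ℕ, Computable c ∧ (∀ x, c x < 4) ∧ ∀ x y, G.Adj x y → c x ≠ c y

end Pool.Agent.T2H90.GQ
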